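import Pool.Agent.Run7.h870.RQ.Rg

/-!
# MP_fc7299_nt: for every large `n`, many `x + y = n` with no small prime factor of `2 ^ x + y`

The problem asks whether every `n ≥ 2` is `x + y` with `x, y > 0` and `2 ^ x + y` prime. Here: for
every sufficiently large `n` there are at least `c * n / log n` representations `n = x + y` for which
all prime factors of `2 ^ x + y` are at least `n ^ δ`, with absolute constants `δ, c > 0`.
-/

set_option autoImplicit false

open Finset

namespace Pool.Agent.Results.MP_fc7299_nt.EveryIntegerRough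

/-- the pairs `(x, y)` of positive integers with `x + y = n` such that every prime factor of
`2 ^ x + y` is at least `z` -/
def rough (n : ℕ) (z : ℝ) : Set (ℕ × ℕ) :=
  {q | 0 < q.1 ∧ 0 < q.2 ∧ n = q.1 + q.2 ∧ ∀ p : ℕ, p.Prime → p ∣ 2 ^ q.1 + q.2 → z ≤ p}

/-- There are `δ, c > 0` and `n₀` such that every `n ≥ n₀` has at least `c * n / log n`
representations `n = x + y`, `x, y > 0`, for which all prime factors of `2 ^ x + y` are at least
`n ^ δ`. -/
theorem result : ∃ δ c : ℝ, 0 < δ ∧ 0 < c ∧ ∃ n₀ : ℕ, ∀ n : ℕ, n₀ ≤ n →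
    c * (n / Real.log n) ≤ ((rough n ((n : ℝ) ^ δ)).ncard : ℝ) := by
  classical
  obtain ⟨δ, c, hδ, hc, n₀, h⟩ := Run7.h870.RQ.main2
  refine ⟨δ, c, hδ, hc, n₀, fun n hn => ?_⟩
  refine (h n hn).trans ?_
  rw [Nat.cast_le]
  have hfin : (rough n ((n : ℝ) ^ δ)).Finite := by
    apply Set.Finite.subset (Finset.finite_toSet (range (n + 1) ×ˢ range (n + 1)))
    rintro ⟨x, y⟩ hq
    have h1 := hq.2.2.1
    simp only at h1
    rw [mem_coe]
    simp only [mem_product, mem_range]
    omega
  have h2 : ((Icc 1 (n - 1)).filter (fun x => ∀ p : ℕ, p.Prime → p ∣ 2 ^ x + (n - x) → (n : ℝ) ^ δ ≤ p)).card =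
      (((Icc 1 (n - 1)).filter (fun x => ∀ p : ℕ, p.Prime → p ∣ 2 ^ x + (n - x) → (n : ℝ) ^ δ ≤ p)).image (fun x => (x, n - x))).card := by
    rw [card_image_of_injOn]
    intro x _ x' _ hxx
    simp only [Prod.mk.injEq] at hxx
    exact hxx.1
  rw [h2, ← Set.ncard_coe_finset]
  apply Set.ncard_le_ncard _ hfin
  intro q hq
  rw [mem_coe, mem_image] at hq
  obtain ⟨x, hx, rfl⟩ := hq
  rw [mem_filter, mem_Icc] at hx
  refine ⟨?_, ?_, ?_, hx.2⟩
  · show 0 < x
    omega
  · show 0 < n - x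
    omega
  · show n = x + (n - x)
    omega

end Pool.Agent.Results.MP_fc7299_nt.EveryIntegerRough
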