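import Pool.Agent.Run7.h870.RQ.Mn

/-!
# MP_fc7299_nt: a positive proportion of every residue class has an admissible representation

The problem asks whether every `n ≥ 2` is `x + y` with `x, y > 0` and `2 ^ x + y` prime. Here: for every
`q ≥ 1` and `r`, a positive proportion of the `n ≡ r (mod q)` have such a representation. In
particular no covering of the exponents by congruences can exclude a residue class (as it does for
Romanoff's problem `n = p + 2 ^ k`).
-/

set_option autoImplicit false

open Finset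

namespace Pool.Agent.Results.MP_fc7299_nt.PositiveProportion

/-- the number of the `n ≤ N` with `n ≡ r (mod q)` and `n = x + y`, `x, y > 0`, `2 ^ x + y` prime -/
noncomputable def adm (N q r : ℕ) : ℕ :=
  Set.ncard {n : ℕ | n ≤ N ∧ n ≡ r [MOD q] ∧ ∃ x y : ℕ, 0 < x ∧ 0 < y ∧ n = x + y ∧ (2 ^ x + y).Prime}

/-- For all `q ≥ 1` and `r` there are `c > 0` and `N₀` such that for all `N ≥ N₀` at least `c * N` of
the `n ≤ N` with `n ≡ r (mod q)` are `x + y` with `x, y > 0` and `2 ^ x + y` prime. -/
theorem result (q r : ℕ) (hq : 1 ≤ q) : ∃ c : ℝ, 0 < c ∧ ∃ N₀ : ℕ, ∀ N : ℕ, N₀ ≤ N →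
    c * N ≤ (adm N q r : ℝ) := by
  classical
  obtain ⟨c, hc, N₀, h⟩ := Run7.h870.RQ.main q r hq
  refine ⟨c, hc, N₀, fun N hN => ?_⟩
  refine (h N hN).trans ?_
  rw [Nat.cast_le, ← Set.ncard_coe_finset]
  apply Set.ncard_le_ncard
  · intro n hn
    rw [mem_coe, mem_filter, mem_Icc] at hn
    exact ⟨hn.1.2, hn.2.1, hn.2.2⟩
  · exact (Set.finite_Iic N).subset (fun n hn => hn.1)

end Pool.Agent.Results.MP_fc7299_nt.PositiveProportion
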